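import Mathlib
import Pool.Agent.helper35.DR.SpecC

/-! Project dr: module CFB: the Clifford correspondence. -/

set_option autoImplicit false

namespace Pool.Agent.DR

open Pool.Agent.helper58.DC Pool.Agent.DI

theorem CFB_mul {Γ : Type} [Group Γ] (a b : Γ) (ψ : Γ → ℂ) :
    funMap (MulAut.conj (a * b)) ψ = funMap (MulAut.conj a) (funMap (MulAut.conj b) ψ) := by
  funext g
  simp [funMap, mul_assoc]

theorem CFB_one {Γ : Type} [Group Γ] (ψ : Γ → ℂ) : funMap (MulAut.conj (1 : Γ)) ψ = ψ := by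
  funext g
  simp [funMap]

theorem CFB_over {Γ : Type} [Group Γ] (K L : Subgroup Γ) (φ ψ ψ' : Γ → ℂ) (e : ℕ) (n : Γ)
    (hn : n ∈ L) (h : ψ = funMap (MulAut.conj n) ψ') (ho : OverE K L φ ψ' e) :
    OverE K L φ ψ e := by
  have hs : {θ : Γ → ℂ | ∃ n ∈ L, θ = funMap (MulAut.conj n) ψ'} =
      {θ : Γ → ℂ | ∃ n ∈ L, θ = funMap (MulAut.conj n) ψ} := by
    ext θ
    simp only [Set.mem_ofPred_eq]
    constructor
    · rintro ⟨a, ha, rfl⟩
      refine ⟨a * n⁻¹, L.mul_mem ha (L.inv_mem hn), ?_⟩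
      rw [h, ← CFB_mul, inv_mul_cancel_right]
    · rintro ⟨a, ha, rfl⟩
      refine ⟨a * n, L.mul_mem ha hn, ?_⟩
      rw [h, ← CFB_mul]
  intro x hx
  rw [ho x hx, hs]

theorem CFB (hB2 : Pool.Agent.DI.B2_stmt) (hCRE : CRE_stmt) (hCUQ : CUQ_stmt) (hCCJ : CCJ_stmt)
    (hCFA : CFA_stmt) : CFB_stmt := by
  classical
  intro Γ _ _ K L hKL hLK ψ hψ
  set S := stF L ψ with hS
  have hSL : S ≤ L := fun n hn => hn.1
  have hSψ : ∀ n ∈ S, funMap (MulAut.conj n) ψ = ψ := fun n hn => hn.2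
  have hKS : K ≤ S := by
    intro n hn
    refine ⟨hKL hn, ?_⟩
    funext g
    have h1 := ((hB2 Γ K).2 ψ hψ).2.1 g n⁻¹ (K.inv_mem hn)
    have h2 : (MulAut.conj n)⁻¹ g = n⁻¹ * g * n⁻¹⁻¹ := by
      rw [← map_inv, MulAut.conj_apply]
    show ψ ((MulAut.conj n)⁻¹ g) = ψ g
    rw [h2, h1]
  have hSK : S ≤ nz K := hSL.trans hLK
  have hFL := (hB2 Γ L).1
  have hFS := (hB2 Γ S).1
  have hFK := (hB2 Γ K).1
  -- degrees
  have hdeg : ∀ (H : Subgroup Γ), ∀ θ ∈ IrrOn H, ∃ n : ℕ, 0 < n ∧ θ 1 = n := by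
    intro H θ hθ
    obtain ⟨n, hn, h1, -⟩ := ((hB2 Γ H).2 θ hθ).1
    exact ⟨n, hn, h1⟩
  obtain ⟨nψ, hnψ, hψ1⟩ := hdeg K ψ hψ
  obtain ⟨m, hm1, hm2, -⟩ := hCRE Γ L S hSL
  obtain ⟨m₁, hm₁, -, -⟩ := hCRE Γ S K hKS
  have cardS : (0 : ℝ) < Nat.card S := by exact_mod_cast Nat.card_pos
  have cardL : (0 : ℝ) < Nat.card L := by exact_mod_cast Nat.card_pos
  -- coefficients
  have hcoef : ∀ φ ∈ IrrOn L, ∀ a : (Γ → ℂ) → ℂ,
      (∀ x ∈ K, φ x = ∑ᶠ η ∈ IrrOn K, a η * η x) → ∀ η ∈ IrrOn K,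
      a η = ((∑ θ ∈ hFS.toFinset, m φ θ * m₁ θ η : ℕ) : ℂ) := by
    intro φ hφ a ha η hη
    refine hCUQ Γ K a (fun η => ((∑ θ ∈ hFS.toFinset, m φ θ * m₁ θ η : ℕ) : ℂ)) ?_ η hη
    intro x hx
    rw [← ha x hx, hm1 φ hφ x (hKS hx), finsum_mem_eq_finite_toFinset_sum _ hFS,
      finsum_mem_eq_finite_toFinset_sum _ hFK]
    have h1 : ∀ θ ∈ hFS.toFinset, (m φ θ : ℂ) * θ x =
        ∑ η ∈ hFK.toFinset, (m φ θ : ℂ) * ((m₁ θ η : ℂ) * η x) := by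
      intro θ hθ
      rw [hm₁ θ (hFS.mem_toFinset.mp hθ) x hx, finsum_mem_eq_finite_toFinset_sum _ hFK,
        Finset.mul_sum]
    rw [Finset.sum_congr rfl h1, Finset.sum_comm]
    refine Finset.sum_congr rfl fun η _ => ?_
    push_cast
    rw [Finset.sum_mul]
    refine Finset.sum_congr rfl fun θ _ => ?_
    ring
  -- the multiplicity of `ψ` in a character of `S` which is a multiple of `ψ` on `K`
  have hm₁e : ∀ φ₀ ∈ IrrOn S, ∀ e : ℕ, (∀ x ∈ K, φ₀ x = e * ψ x) → m₁ φ₀ ψ = e ∧ 0 < e := by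
    intro φ₀ hφ₀ e he
    constructor
    · have h1 := hCUQ Γ K (fun η => (m₁ φ₀ η : ℂ)) (fun η => if η = ψ then (e : ℂ) else 0) (by
        intro x hx
        rw [← hm₁ φ₀ hφ₀ x hx, he x hx, finsum_mem_eq_finite_toFinset_sum _ hFK]
        rw [Finset.sum_eq_single ψ]
        · simp
        · intro η _ hne
          simp [hne]
        · intro hn
          exact absurd (hFK.mem_toFinset.mpr hψ) hn) ψ hψ
      simp only [if_true] at h1
      exact_mod_cast h1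
    · rcases Nat.eq_zero_or_pos e with h0 | h0
      · exfalso
        obtain ⟨n, hn, h1⟩ := hdeg S φ₀ hφ₀
        have h2 := he 1 K.one_mem
        rw [h1, h0] at h2
        simp only [Nat.cast_zero, zero_mul, Nat.cast_eq_zero] at h2
        omega
      · exact h0
  -- the degree of the induced function
  have hind1 : ∀ φ₀ : Γ → ℂ, indf L S φ₀ 1 * Nat.card S = Nat.card L * φ₀ 1 := by
    intro φ₀
    have h1 : ∑ᶠ t ∈ (L : Set Γ), φ₀ (t⁻¹ * 1 * t) = Nat.card L * φ₀ 1 := by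
      have h2 : ∀ t : Γ, φ₀ (t⁻¹ * 1 * t) = φ₀ 1 := by
        intro t
        rw [mul_one, inv_mul_cancel]
      simp only [h2]
      rw [finsum_mem_eq_finite_toFinset_sum _ (Set.toFinite _), Finset.sum_const, nsmul_eq_mul]
      congr 2
      rw [← Set.ncard_eq_toFinset_card (L : Set Γ) (Set.toFinite _), ← Nat.card_coe_set_eq]
      rfl
    have hS0 : (Nat.card S : ℂ) ≠ 0 := by exact_mod_cast Nat.card_pos.ne'
    show (Nat.card S : ℂ)⁻¹ * _ * _ = _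
    rw [h1]
    field_simp
  -- main claim
  have hmain : ∀ φ₀ ∈ IrrOn S, ∀ e : ℕ, (∀ x ∈ K, φ₀ x = e * ψ x) → ∀ φ ∈ IrrOn L, 0 < m φ φ₀ →
      indf L S φ₀ = φ ∧ OverE K L φ ψ e := by
    intro φ₀ hφ₀ e he φ hφ hpos
    obtain ⟨hm₁φ₀, he0⟩ := hm₁e φ₀ hφ₀ e he
    obtain ⟨ψ', hψ', e', he', ho'⟩ := (hCFA Γ K L hKL hLK).1 φ hφ
    have h1 := hcoef φ hφ _ (((hCCJ Γ K L hLK ψ' hψ').2.1 φ e').mp ho') ψ hψ
    have h2 : e ≤ ∑ θ ∈ hFS.toFinset, m φ θ * m₁ θ ψ := by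
      calc e ≤ m φ φ₀ * m₁ φ₀ ψ := by
            rw [hm₁φ₀]
            exact Nat.le_mul_of_pos_left e hpos
        _ ≤ ∑ θ ∈ hFS.toFinset, m φ θ * m₁ θ ψ :=
            Finset.single_le_sum (f := fun θ => m φ θ * m₁ θ ψ) (fun _ _ => Nat.zero_le _)
              (hFS.mem_toFinset.mpr hφ₀)
    have hconj : ∃ n ∈ L, ψ = funMap (MulAut.conj n) ψ' := by
      by_contra hcon
      rw [if_neg hcon] at h1
      have h3 : (0 : ℕ) = ∑ θ ∈ hFS.toFinset, m φ θ * m₁ θ ψ := by exact_mod_cast h1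
      omega
    have hee : e ≤ e' := by
      rw [if_pos hconj] at h1
      have h3 : e' = ∑ θ ∈ hFS.toFinset, m φ θ * m₁ θ ψ := by exact_mod_cast h1
      omega
    obtain ⟨n, hn, hnψ'⟩ := hconj
    have ho : OverE K L φ ψ e' := CFB_over K L φ ψ ψ' e' n hn hnψ' ho'
    have hd := (hCCJ Γ K L hLK ψ hψ).2.2.2 φ e' ho
    rw [← hS] at hd
    -- degrees as real numbers
    have hpart : ∀ x, indf L S φ₀ x = ∑ φ' ∈ hFL.toFinset, (m φ' φ₀ : ℂ) * φ' x := by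
      intro x
      rw [hm2 φ₀ hφ₀ x, finsum_mem_eq_finite_toFinset_sum _ hFL]
    choose! dL hdL0 hdL using hdeg L
    have h4 : indf L S φ₀ 1 = ((∑ φ' ∈ hFL.toFinset, m φ' φ₀ * dL φ' : ℕ) : ℂ) := by
      rw [hpart]
      push_cast
      refine Finset.sum_congr rfl fun φ' hφ' => ?_
      rw [hdL φ' (hFL.mem_toFinset.mp hφ')]
    have h5 := hind1 φ₀
    rw [h4, he 1 K.one_mem, hψ1] at h5
    rw [hdL φ hφ, hψ1] at hd
    have h5' : (∑ φ' ∈ hFL.toFinset, m φ' φ₀ * dL φ') * Nat.card S =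
        Nat.card L * (e * nψ) := by exact_mod_cast h5
    have hd' : dL φ * Nat.card S = e' * Nat.card L * nψ := by exact_mod_cast hd
    have hle : ∑ φ' ∈ hFL.toFinset, m φ' φ₀ * dL φ' ≤ dL φ := by
      have h6 : (∑ φ' ∈ hFL.toFinset, m φ' φ₀ * dL φ') * Nat.card S ≤ dL φ * Nat.card S := by
        rw [h5', hd']
        calc Nat.card L * (e * nψ) = e * (Nat.card L * nψ) := by ring
          _ ≤ e' * (Nat.card L * nψ) := Nat.mul_le_mul_right _ hee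
          _ = e' * Nat.card L * nψ := by ring
      exact Nat.le_of_mul_le_mul_right h6 Nat.card_pos
    have hsplit : ∑ φ' ∈ hFL.toFinset, m φ' φ₀ * dL φ' =
        m φ φ₀ * dL φ + ∑ φ' ∈ hFL.toFinset.erase φ, m φ' φ₀ * dL φ' :=
      (Finset.add_sum_erase _ _ (hFL.mem_toFinset.mpr hφ)).symm
    have hφd : 0 < dL φ := hdL0 φ hφ
    have hone : m φ φ₀ = 1 := by
      by_contra hne
      have h7 : 2 ≤ m φ φ₀ := by omega
      have h8 : 2 * dL φ ≤ m φ φ₀ * dL φ := Nat.mul_le_mul_right _ h7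
      omega
    have hzero : ∑ φ' ∈ hFL.toFinset.erase φ, m φ' φ₀ * dL φ' = 0 := by
      rw [hone] at hsplit
      omega
    have hz : ∀ φ' ∈ hFL.toFinset, φ' ≠ φ → m φ' φ₀ = 0 := by
      intro φ' hφ' hne
      have h9 := (Finset.sum_eq_zero_iff.mp hzero) φ' (Finset.mem_erase.mpr ⟨hne, hφ'⟩)
      rcases Nat.mul_eq_zero.mp h9 with h | h
      · exact h
      · exact absurd h (hdL0 φ' (hFL.mem_toFinset.mp hφ')).ne'
    have hindφ : indf L S φ₀ = φ := by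
      funext x
      rw [hpart, Finset.sum_eq_single φ]
      · rw [hone]; simp
      · intro φ' hφ' hne
        rw [hz φ' hφ' hne]; simp
      · intro h
        exact absurd (hFL.mem_toFinset.mpr hφ) h
    refine ⟨hindφ, ?_⟩
    have hsum : ∑ φ' ∈ hFL.toFinset, m φ' φ₀ * dL φ' = dL φ := by
      rw [hsplit, hzero, hone]; ring
    rw [hsum] at h5'
    have h10 : e' * (Nat.card L * nψ) = e * (Nat.card L * nψ) := by
      calc e' * (Nat.card L * nψ) = e' * Nat.card L * nψ := by ring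
        _ = dL φ * Nat.card S := hd'.symm
        _ = Nat.card L * (e * nψ) := h5'
        _ = e * (Nat.card L * nψ) := by ring
    have h11 : e' = e := Nat.eq_of_mul_eq_mul_right (Nat.mul_pos Nat.card_pos hnψ) h10
    rwa [h11] at ho
  have hex : ∀ φ₀ ∈ IrrOn S, ∃ φ ∈ IrrOn L, 0 < m φ φ₀ := by
    intro φ₀ hφ₀
    by_contra hcon
    push Not at hcon
    have h1 : indf L S φ₀ 1 = 0 := by
      rw [hm2 φ₀ hφ₀ 1, finsum_mem_eq_finite_toFinset_sum _ hFL]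
      refine Finset.sum_eq_zero fun φ hφ => ?_
      have := hcon φ (hFL.mem_toFinset.mp hφ)
      have h0 : m φ φ₀ = 0 := by omega
      rw [h0]; simp
    have h2 := hind1 φ₀
    rw [h1, zero_mul] at h2
    obtain ⟨n, hn, h3⟩ := hdeg S φ₀ hφ₀
    rw [h3] at h2
    have h4 : (Nat.card L : ℂ) ≠ 0 := by exact_mod_cast Nat.card_pos.ne'
    have h5 : (n : ℂ) ≠ 0 := by exact_mod_cast hn.ne'
    exact mul_ne_zero h4 h5 h2.symm
  refine ⟨?_, ?_, ?_⟩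
  · intro φ₀ hφ₀ e he
    obtain ⟨φ, hφ, hpos⟩ := hex φ₀ hφ₀
    obtain ⟨h1, h2⟩ := hmain φ₀ hφ₀ e he φ hφ hpos
    rw [h1]
    refine ⟨hφ, h2, ?_⟩
    rw [← h1]
    exact hind1 φ₀
  · intro φ₀ hφ₀ φ₁ hφ₁ e e' he he' hEq
    by_contra hne
    obtain ⟨φ, hφ, hpos⟩ := hex φ₀ hφ₀
    obtain ⟨h1, h2⟩ := hmain φ₀ hφ₀ e he φ hφ hpos
    obtain ⟨φ', hφ', hpos'⟩ := hex φ₁ hφ₁
    obtain ⟨h1', h2'⟩ := hmain φ₁ hφ₁ e' he' φ' hφ' hpos'
    have h3 : φ' = φ := by rw [← h1', ← hEq, h1]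
    rw [h3] at hpos'
    obtain ⟨ha, hb⟩ := hm₁e φ₀ hφ₀ e he
    obtain ⟨ha', hb'⟩ := hm₁e φ₁ hφ₁ e' he'
    have h4 := hcoef φ hφ _ (((hCCJ Γ K L hLK ψ hψ).2.1 φ e).mp h2) ψ hψ
    rw [if_pos ⟨1, L.one_mem, (CFB_one ψ).symm⟩] at h4
    have h5 : e = ∑ θ ∈ hFS.toFinset, m φ θ * m₁ θ ψ := by exact_mod_cast h4
    have h6 : m φ φ₀ * m₁ φ₀ ψ + m φ φ₁ * m₁ φ₁ ψ ≤ ∑ θ ∈ hFS.toFinset, m φ θ * m₁ θ ψ := by
      have h7 : ({φ₀, φ₁} : Finset (Γ → ℂ)) ⊆ hFS.toFinset := by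
        intro θ hθ
        rw [Finset.mem_insert, Finset.mem_singleton] at hθ
        rcases hθ with rfl | rfl
        · exact hFS.mem_toFinset.mpr hφ₀
        · exact hFS.mem_toFinset.mpr hφ₁
      calc m φ φ₀ * m₁ φ₀ ψ + m φ φ₁ * m₁ φ₁ ψ =
            ∑ θ ∈ ({φ₀, φ₁} : Finset (Γ → ℂ)), m φ θ * m₁ θ ψ := by
              rw [Finset.sum_pair hne]
        _ ≤ _ := Finset.sum_le_sum_of_subset h7
    rw [ha, ha'] at h6
    have h8 : e ≤ m φ φ₀ * e := Nat.le_mul_of_pos_left e hpos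
    have h9 : e' ≤ m φ φ₁ * e' := Nat.le_mul_of_pos_left e' hpos'
    omega
  · intro φ hφ e he0 ho
    have h4 := hcoef φ hφ _ (((hCCJ Γ K L hLK ψ hψ).2.1 φ e).mp ho) ψ hψ
    rw [if_pos ⟨1, L.one_mem, (CFB_one ψ).symm⟩] at h4
    have h5 : e = ∑ θ ∈ hFS.toFinset, m φ θ * m₁ θ ψ := by exact_mod_cast h4
    have h6 : ∃ θ ∈ hFS.toFinset, m φ θ * m₁ θ ψ ≠ 0 := by
      by_contra hcon
      push Not at hcon
      rw [Finset.sum_eq_zero hcon] at h5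
      omega
    obtain ⟨φ₀, hφ₀', h7⟩ := h6
    have hφ₀ := hFS.mem_toFinset.mp hφ₀'
    have hpos : 0 < m φ φ₀ := Nat.pos_of_ne_zero (left_ne_zero_of_mul h7)
    have hpos₁ : 0 < m₁ φ₀ ψ := Nat.pos_of_ne_zero (right_ne_zero_of_mul h7)
    obtain ⟨ψ'', hψ'', e'', he'', ho''⟩ := (hCFA Γ K S hKS hSK).1 φ₀ hφ₀
    have h8 := hCUQ Γ K (fun η => (m₁ φ₀ η : ℂ))
      (fun η => if ∃ n ∈ S, η = funMap (MulAut.conj n) ψ'' then (e'' : ℂ) else 0) (by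
      intro x hx
      rw [← hm₁ φ₀ hφ₀ x hx]
      exact ((hCCJ Γ K S hSK ψ'' hψ'').2.1 φ₀ e'').mp ho'' x hx) ψ hψ
    have hconj : ∃ n ∈ S, ψ = funMap (MulAut.conj n) ψ'' := by
      by_contra hcon
      rw [if_neg hcon] at h8
      have h9 : m₁ φ₀ ψ = 0 := by exact_mod_cast h8
      omega
    obtain ⟨n, hn, hn'⟩ := hconj
    have ho₀ : OverE K S φ₀ ψ e'' := CFB_over K S φ₀ ψ ψ'' e'' n hn hn' ho''
    have he₀ : ∀ x ∈ K, φ₀ x = e'' * ψ x := by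
      intro x hx
      rw [ho₀ x hx]
      have hs : {ψ' : Γ → ℂ | ∃ n ∈ S, ψ' = funMap (MulAut.conj n) ψ} = {ψ} := by
        ext θ
        simp only [Set.mem_ofPred_eq, Set.mem_singleton_iff]
        constructor
        · rintro ⟨a, ha, rfl⟩
          exact hSψ a ha
        · rintro rfl
          exact ⟨1, S.one_mem, (CFB_one _).symm⟩
      rw [hs, finsum_mem_singleton]
    obtain ⟨h9, h10⟩ := hmain φ₀ hφ₀ e'' he₀ φ hφ hpos
    have h11 := ((hCFA Γ K L hKL hLK).2 φ ψ hψ ψ hψ e e'' he0 he'' ho h10).1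
    refine ⟨φ₀, hφ₀, ?_, h9⟩
    rw [h11]
    exact he₀

end Pool.Agent.DR
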